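import Mathlib
import Pool.Agent.Q105.TwBall
import Pool.Agent.Q105.FreeCube

/-!
# Positive twisted conjugacy ratio in free groups

For the free group `F` on a finite set `α` with at least two elements, with its standard
generating set, the endomorphism `a ↦ a³` has positive twisted conjugacy ratio.
-/

namespace Pool.Agent.Results.MP_dff590_al.PositiveRatio

open Pool.Agent.Q105.TwBall Pool.Agent.Q105.FreeCube

/-- The relators of the right-angled Artin group of a graph. -/
def raagRelators {V : Type*} (Γ : SimpleGraph V) : Set (FreeGroup V) :=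
  {w | ∃ a b : V, Γ.Adj a b ∧
    w = FreeGroup.of a * FreeGroup.of b * (FreeGroup.of a)⁻¹ * (FreeGroup.of b)⁻¹}

/-- The right-angled Artin group of a graph. -/
abbrev RAAG {V : Type*} (Γ : SimpleGraph V) : Type _ := PresentedGroup (raagRelators Γ)

lemma relators_bot (α : Type*) : raagRelators (⊥ : SimpleGraph α) = ∅ := by
  ext w
  simp [raagRelators]

/-- The free group is the right-angled Artin group of the edgeless graph. -/
noncomputable def freeEquivRAAG (α : Type*) : FreeGroup α ≃* RAAG (⊥ : SimpleGraph α) := by
  refine MulEquiv.ofBijective (PresentedGroup.mk (raagRelators (⊥ : SimpleGraph α))) ⟨?_, ?_⟩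
  · rw [injective_iff_map_eq_one]
    intro w hw
    rw [PresentedGroup.mk_eq_one_iff, relators_bot] at hw
    simpa using hw
  · exact PresentedGroup.mk_surjective _

lemma tcr_pos (α : Type*) [Finite α] [Nontrivial α] :
    0 < tcr (cubeHom α) (Set.range (FreeGroup.of : α → FreeGroup α)) := by
  classical
  set X := Set.range (FreeGroup.of : α → FreeGroup α) with hX
  have hXf : X.Finite := Set.finite_range _
  set K : ℕ := 2 * X.ncard + 1 with hK
  have hKpos : 0 < K := by omega
  have hc : (1 : ℝ) / (2 * K) ≤ tcr (cubeHom α) X := by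
    refine le_tcr_of_eventually X hXf _ _ ?_
    filter_upwards [Filter.eventually_ge_atTop 2] with n hn
    obtain ⟨m, rfl⟩ : ∃ m, n = m + 1 + 1 := ⟨n - 2, by omega⟩
    have h1 := Ball_succ_ncard_le X hXf (m + 1)
    have h2 := ball_sub_one_le (α := α) (m + 1)
    have h3 := two_mul_ball_le (α := α) m
    have h4 := Ball_ncard_pos X hXf m
    have h5 := Ball_ncard_pos X hXf (m + 1 + 1)
    rw [← hX] at h2 h3
    have h6 : (Ball X (m + 1)).ncard ≤
        2 * (twClasses (cubeHom α) X (m + 1 + 1)).ncard := by omega
    have h7 : (Ball X (m + 1 + 1)).ncard ≤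
        2 * K * (twClasses (cubeHom α) X (m + 1 + 1)).ncard := by
      calc _ ≤ K * (Ball X (m + 1)).ncard := h1
        _ ≤ K * (2 * (twClasses (cubeHom α) X (m + 1 + 1)).ncard) := Nat.mul_le_mul_left _ h6
        _ = _ := by ring
    rw [div_le_div_iff₀ (by positivity) (by exact_mod_cast h5)]
    have h8 : ((Ball X (m + 1 + 1)).ncard : ℝ) ≤
        2 * K * ((twClasses (cubeHom α) X (m + 1 + 1)).ncard : ℝ) := by exact_mod_cast h7
    linarith
  have : (0 : ℝ) < 1 / (2 * K) := by positivity
  linarith

lemma nonabelian (α : Type*) [Nontrivial α] : ∃ x y : FreeGroup α, x * y ≠ y * x := by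
  classical
  obtain ⟨a, b, hab⟩ := exists_pair_ne α
  refine ⟨FreeGroup.of a, FreeGroup.of b, fun h => ?_⟩
  have h1 := congrArg FreeGroup.toWord h
  have h2 : FreeGroup.of a * FreeGroup.of b = FreeGroup.mk [(a, true), (b, true)] := rfl
  have h3 : FreeGroup.of b * FreeGroup.of a = FreeGroup.mk [(b, true), (a, true)] := rfl
  rw [h2, h3, FreeGroup.toWord_mk, FreeGroup.toWord_mk, FreeGroup.IsReduced.reduce_eq (by simp),
    FreeGroup.IsReduced.reduce_eq (by simp)] at h1
  simp at h1
  exact hab h1.1

/-- For every finite set `α` with at least two elements the free group on `α` is a non-abelian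
right-angled Artin group, it is generated by the finite set `α`, and the twisted conjugacy ratio
of the endomorphism `a ↦ a³` with respect to `α` is positive. -/
theorem result (α : Type) [Finite α] [Nontrivial α] :
    Nonempty (FreeGroup α ≃* RAAG (⊥ : SimpleGraph α)) ∧
    (∃ x y : FreeGroup α, x * y ≠ y * x) ∧
    (Set.range (FreeGroup.of : α → FreeGroup α)).Finite ∧
    Subgroup.closure (Set.range (FreeGroup.of : α → FreeGroup α)) = ⊤ ∧
    0 < tcr (FreeGroup.lift fun a : α => FreeGroup.of a ^ 3)
      (Set.range (FreeGroup.of : α → FreeGroup α)) :=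
  ⟨⟨freeEquivRAAG α⟩, nonabelian α, Set.finite_range _, FreeGroup.closure_range_of α, tcr_pos α⟩

end Pool.Agent.Results.MP_dff590_al.PositiveRatio
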